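import Mathlib

set_option autoImplicit false

open Filter Topology Finset
open scoped ENNReal

namespace Pool.Agent.Helper66.GBV

/-- A `Λ`-sequence, indexed from `0`: a non-decreasing sequence of positive reals
`l 0 ≤ l 1 ≤ ...` whose sum of reciprocals diverges. -/
structure IsLambdaSeq (l : ℕ → ℝ) : Prop where
  pos : ∀ i, 0 < l i
  mono : Monotone l
  diverges : Tendsto (fun n : ℕ => ∑ i ∈ range n, 1 / l i) atTop atTop

/-- The closed intervals `[s i, t i]`, `i : Fin n`, are (non-degenerate) subintervals of `[a, b]`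
and are pairwise non-overlapping. No order of the intervals is prescribed. -/
structure NonOverlapping (a b : ℝ) {n : ℕ} (s t : Fin n → ℝ) : Prop where
  lt : ∀ i, s i < t i
  left : ∀ i, a ≤ s i
  right : ∀ i, t i ≤ b
  disj : ∀ i j, i ≠ j → t i ≤ s j ∨ t j ≤ s i

/-- Waterman's `Λ`-variation of `f` on `[a, b]`: the supremum over all finite families of
non-overlapping closed subintervals `[s i, t i]` of `[a, b]` (in any order) of
`∑ |f (t i) - f (s i)| / l i`. -/
noncomputable def variation (l : ℕ → ℝ) (a b : ℝ) (f : ℝ → ℝ) : ℝ≥0∞ :=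
  ⨆ (n : ℕ) (s : Fin n → ℝ) (t : Fin n → ℝ) (_ : NonOverlapping a b s t),
    ENNReal.ofReal (∑ i, |f (t i) - f (s i)| / l i)

/-- The class `ΛBV` on `[a, b]`. -/
def BV (l : ℕ → ℝ) (a b : ℝ) : Set (ℝ → ℝ) := {f | variation l a b f < ∞}

/-- The class `ΛBV_c` of functions in `ΛBV` that are continuous in `Λ`-variation: the
variations with respect to the shifted sequences `(l (i + m))_i` tend to `0` as `m → ∞`. -/
def BVc (l : ℕ → ℝ) (a b : ℝ) : Set (ℝ → ℝ) :=
  {f | f ∈ BV l a b ∧
    Tendsto (fun m : ℕ => variation (fun i => l (i + m)) a b f) atTop (𝓝 0)}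

end Pool.Agent.Helper66.GBV
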