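import Mathlib
import Pool.Agent.Helper66.GBVDefs

set_option autoImplicit false

open Filter Topology Finset
open scoped ENNReal

namespace Pool.Agent.Helper66.GBV

/-! ### Real bounds for the variation -/

/-- `C` bounds all the sums in the definition of the variation. -/
def BddBy (l : ℕ → ℝ) (a b : ℝ) (f : ℝ → ℝ) (C : ℝ) : Prop :=
  ∀ (n : ℕ) (s t : Fin n → ℝ), NonOverlapping a b s t → ∑ i, |f (t i) - f (s i)| / l i ≤ C

lemma variation_le_ofReal_iff {l : ℕ → ℝ} {a b : ℝ} {f : ℝ → ℝ} {C : ℝ} (hC : 0 ≤ C) :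
    variation l a b f ≤ ENNReal.ofReal C ↔ BddBy l a b f C := by
  unfold variation BddBy
  simp only [iSup_le_iff]
  refine ⟨fun h n s t hst => ?_, fun h n s t hst => ?_⟩
  · exact (ENNReal.ofReal_le_ofReal_iff hC).1 (h n s t hst)
  · exact (ENNReal.ofReal_le_ofReal_iff hC).2 (h n s t hst)

lemma ofReal_le_variation {l : ℕ → ℝ} {a b : ℝ} {f : ℝ → ℝ} {n : ℕ} {s t : Fin n → ℝ}
    (h : NonOverlapping a b s t) :
    ENNReal.ofReal (∑ i, |f (t i) - f (s i)| / l i) ≤ variation l a b f := by
  unfold variation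
  exact le_iSup_of_le n (le_iSup_of_le s (le_iSup_of_le t (le_iSup_of_le h le_rfl)))

lemma BddBy.nonneg {l : ℕ → ℝ} {a b : ℝ} {f : ℝ → ℝ} {C : ℝ} (h : BddBy l a b f C) : 0 ≤ C := by
  have := h 0 Fin.elim0 Fin.elim0 ⟨fun i => i.elim0, fun i => i.elim0, fun i => i.elim0,
    fun i => i.elim0⟩
  simpa using this

lemma mem_BV_iff {l : ℕ → ℝ} {a b : ℝ} {f : ℝ → ℝ} : f ∈ BV l a b ↔ ∃ C, BddBy l a b f C := by
  unfold BV
  simp only [Set.mem_ofPred_eq]
  constructor
  · intro h
    refine ⟨(variation l a b f).toReal, ?_⟩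
    rw [← variation_le_ofReal_iff ENNReal.toReal_nonneg, ENNReal.ofReal_toReal h.ne]
  · rintro ⟨C, hC⟩
    exact lt_of_le_of_lt ((variation_le_ofReal_iff hC.nonneg).2 hC) ENNReal.ofReal_lt_top

/-- The sums may be taken over any finite index set, with any injective assignment of weights. -/
lemma BddBy.sum_le_of_injOn {l : ℕ → ℝ} {a b : ℝ} {f : ℝ → ℝ} {C : ℝ} (h : BddBy l a b f C)
    (hpos : ∀ i, 0 < l i) (hmono : Monotone l) {ι : Type*} (I : Finset ι) (s t : ι → ℝ)
    (σ : ι → ℕ) (hσ : Set.InjOn σ I) (hlt : ∀ i ∈ I, s i < t i) (ha : ∀ i ∈ I, a ≤ s i)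
    (hb : ∀ i ∈ I, t i ≤ b) (hd : ∀ i ∈ I, ∀ j ∈ I, i ≠ j → t i ≤ s j ∨ t j ≤ s i) :
    ∑ i ∈ I, |f (t i) - f (s i)| / l (σ i) ≤ C := by
  classical
  set J : Finset ℕ := I.image σ with hJ
  set e := J.orderEmbOfFin (rfl : J.card = J.card) with he
  have hmem : ∀ p : Fin J.card, ∃ i ∈ I, σ i = e p := by
    intro p
    have : e p ∈ J := Finset.orderEmbOfFin_mem J rfl p
    simpa [hJ] using this
  choose g hgI hg using hmem
  have hginj : Function.Injective g := by
    intro p q hpq
    have : e p = e q := by rw [← hg p, ← hg q, hpq]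
    exact e.injective this
  have hle : ∀ p : Fin J.card, (p : ℕ) ≤ e p := by
    intro p
    have hsm : StrictMono e := e.strictMono
    obtain ⟨p, hp⟩ := p
    induction p with
    | zero => exact Nat.zero_le _
    | succ q ih =>
      have h1 := ih (Nat.lt_of_succ_lt hp)
      have h2 : e ⟨q, Nat.lt_of_succ_lt hp⟩ < e ⟨q + 1, hp⟩ := hsm (by simp)
      simp only at h1 ⊢
      omega
  have hNO : NonOverlapping a b (s ∘ g) (t ∘ g) :=
    ⟨fun i => hlt _ (hgI i), fun i => ha _ (hgI i), fun i => hb _ (hgI i),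
      fun i j hij => hd _ (hgI i) _ (hgI j) (fun h => hij (hginj h))⟩
  have hsum : ∑ i ∈ I, |f (t i) - f (s i)| / l (σ i)
      = ∑ p : Fin J.card, |f (t (g p)) - f (s (g p))| / l (e p) := by
    symm
    refine Finset.sum_bij (fun p _ => g p) (fun p _ => hgI p) (fun p _ q _ h => hginj h) ?_ ?_
    · intro i hi
      have : σ i ∈ J := Finset.mem_image_of_mem σ hi
      have hr : σ i ∈ Set.range e := by
        rw [he, Finset.range_orderEmbOfFin]; exact this
      obtain ⟨p, hp⟩ := hr
      exact ⟨p, Finset.mem_univ _, hσ (hgI p) hi (by rw [hg p, hp])⟩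
    · intro p _
      rw [hg p]
  rw [hsum]
  refine le_trans (Finset.sum_le_sum fun p _ => ?_) (h J.card _ _ hNO)
  exact div_le_div_of_nonneg_left (abs_nonneg _) (hpos _) (hmono (hle p))


/-- Oscillation bound. -/
lemma BddBy.osc {l : ℕ → ℝ} {a b : ℝ} {f : ℝ → ℝ} {C : ℝ} (h : BddBy l a b f C)
    (hpos : ∀ i, 0 < l i) {x y : ℝ} (hx : a ≤ x) (hxy : x < y) (hy : y ≤ b) :
    |f y - f x| ≤ l 0 * C := by
  have h1 := h 1 (fun _ => x) (fun _ => y) ⟨fun _ => hxy, fun _ => hx, fun _ => hy,
    fun i j hij => absurd (Subsingleton.elim i j) hij⟩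
  simp only [Finset.univ_unique, Fin.default_eq_zero, Fin.isValue, Fin.val_eq_zero,
    Finset.sum_const, Finset.card_singleton, one_smul] at h1
  rw [div_le_iff₀ (hpos 0)] at h1
  linarith

/-- The set of sums for the shifted sequence. -/
def sums (l : ℕ → ℝ) (a b : ℝ) (f : ℝ → ℝ) : Set ℝ :=
  {v | ∃ (n : ℕ) (s t : Fin n → ℝ), NonOverlapping a b s t ∧ v = ∑ i, |f (t i) - f (s i)| / l i}

lemma sums_nonempty (l : ℕ → ℝ) (a b : ℝ) (f : ℝ → ℝ) : (sums l a b f).Nonempty :=
  ⟨0, 0, Fin.elim0, Fin.elim0, ⟨fun i => i.elim0, fun i => i.elim0, fun i => i.elim0,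
    fun i => i.elim0⟩, by simp⟩

lemma BddBy.shift {l : ℕ → ℝ} {a b : ℝ} {f : ℝ → ℝ} {C : ℝ} (h : BddBy l a b f C)
    (hpos : ∀ i, 0 < l i) (hmono : Monotone l) (m : ℕ) : BddBy (fun i => l (i + m)) a b f C := by
  intro n s t hst
  refine le_trans (Finset.sum_le_sum fun p _ => ?_) (h n _ _ hst)
  exact div_le_div_of_nonneg_left (abs_nonneg _) (hpos _) (hmono (Nat.le_add_right _ _))

/-- **Key lemma.** Far out in the sequence, repeating every weight `k` times does not increase
the variation. -/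
lemma BddBy.dilate {l : ℕ → ℝ} {a b : ℝ} {f : ℝ → ℝ} {V : ℝ} (h : BddBy l a b f V)
    (hpos : ∀ i, 0 < l i) (hmono : Monotone l) (htop : Tendsto l atTop atTop)
    (k : ℕ) (hk : 0 < k) (ε : ℝ) (hε : 0 < ε) :
    ∃ m : ℕ, BddBy (fun i => l (i / k + m)) a b f (V + ε) := by
  classical
  -- the real-valued variations of the shifted sequences
  set A : ℕ → ℝ := fun m => sSup (sums (fun i => l (i + m)) a b f) with hA
  have hbdd : ∀ m, BddAbove (sums (fun i => l (i + m)) a b f) := by
    intro m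
    refine ⟨V, ?_⟩
    rintro v ⟨n, s, t, hst, rfl⟩
    exact h.shift hpos hmono m n s t hst
  have hAbdd : ∀ m, BddBy (fun i => l (i + m)) a b f (A m) := by
    intro m n s t hst
    exact le_csSup (hbdd m) ⟨n, s, t, hst, rfl⟩
  have hAV : ∀ m, A m ≤ V := by
    intro m
    refine csSup_le (sums_nonempty _ _ _ _) ?_
    rintro v ⟨n, s, t, hst, rfl⟩
    exact h.shift hpos hmono m n s t hst
  have hA0 : ∀ m, 0 ≤ A m := fun m => (hAbdd m).nonneg
  have hanti : Antitone A := by
    intro m M hmM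
    refine csSup_le (sums_nonempty _ _ _ _) ?_
    rintro v ⟨n, s, t, hst, rfl⟩
    refine le_trans (Finset.sum_le_sum fun p _ => ?_) (hAbdd m n s t hst)
    exact div_le_div_of_nonneg_left (abs_nonneg _) (hpos _) (hmono (by omega))
  set δ : ℝ := ε / (3 * k) with hδ
  have hk' : (0 : ℝ) < k := by exact_mod_cast hk
  have hδ0 : 0 < δ := by positivity
  have hbb : BddBelow (Set.range A) := ⟨0, by rintro _ ⟨m, rfl⟩; exact hA0 m⟩
  obtain ⟨m, hm⟩ : ∃ m, A m < iInf A + δ := exists_lt_of_ciInf_lt (by linarith)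
  have hmM : ∀ M, A m - δ ≤ A M := by
    intro M
    have := ciInf_le hbb M
    linarith
  refine ⟨m, ?_⟩
  intro n s t hst
  -- choose M
  have hV0 : 0 ≤ V := h.nonneg
  obtain ⟨M, hMm, hM⟩ : ∃ M, m + n ≤ M ∧ 2 * n * (l 0 * V) / l M ≤ δ := by
    have h1 : Tendsto (fun M => 2 * n * (l 0 * V) / l M) atTop (𝓝 0) :=
      Tendsto.div_atTop tendsto_const_nhds htop
    have h2 := (h1.eventually (Iic_mem_nhds hδ0)).and (eventually_ge_atTop (m + n))
    obtain ⟨M, hM1, hM2⟩ := h2.exists
    exact ⟨M, hM2, hM1⟩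
  obtain ⟨v, ⟨n', s', t', hst', rfl⟩, hv⟩ :=
    exists_lt_of_lt_csSup (sums_nonempty (fun i => l (i + M)) a b f)
      (show A M - δ < sSup (sums (fun i => l (i + M)) a b f) by
        have : A M = sSup (sums (fun i => l (i + M)) a b f) := rfl
        linarith)
  have hv' : A m - 2 * δ < ∑ j, |f (t' j) - f (s' j)| / l (j + M) := by
    have := hmM M
    linarith
  set y : Fin n' → ℝ := fun j => |f (t' j) - f (s' j)| / l (j + M) with hy
  have hy0 : ∀ j, 0 ≤ y j := fun j => div_nonneg (abs_nonneg _) (hpos _).le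
  set x : Fin n → ℝ := fun i => |f (t i) - f (s i)| / l (i / k + m) with hx
  -- bad intervals
  set Bs : Fin n → Finset (Fin n') := fun i => univ.filter (fun j => s' j < s i ∧ s i < t' j)
    with hBs
  set Bt : Fin n → Finset (Fin n') := fun i => univ.filter (fun j => s' j < t i ∧ t i < t' j)
    with hBt
  set B : Finset (Fin n') := univ.biUnion (fun i => Bs i ∪ Bt i) with hB
  have hone : ∀ p : ℝ, (univ.filter (fun j => s' j < p ∧ p < t' j)).card ≤ 1 := by
    intro p
    rw [Finset.card_le_one]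
    intro j hj j' hj'
    simp only [mem_filter, mem_univ, true_and] at hj hj'
    by_contra hne
    rcases hst'.disj j j' hne with h1 | h1
    · linarith [hj.2, hj'.1]
    · linarith [hj.1, hj'.2]
  have hBcard : (B.card : ℝ) ≤ 2 * n := by
    have h1 : B.card ≤ ∑ i : Fin n, (Bs i ∪ Bt i).card := Finset.card_biUnion_le
    have h2 : ∑ i : Fin n, (Bs i ∪ Bt i).card ≤ ∑ _i : Fin n, 2 := by
      refine Finset.sum_le_sum fun i _ => ?_
      have := Finset.card_union_le (Bs i) (Bt i)
      have h3 := hone (s i)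
      have h4 := hone (t i)
      simp only [hBs, hBt] at *
      omega
    have h3 : B.card ≤ 2 * n := by
      calc B.card ≤ _ := h1
        _ ≤ _ := h2
        _ = 2 * n := by simp [mul_comm]
    exact_mod_cast h3
  have hBsum : ∑ j ∈ B, y j ≤ δ := by
    have h1 : ∀ j ∈ B, y j ≤ (l 0 * V) / l M := by
      intro j _
      have h2 := h.osc hpos (hst'.left j) (hst'.lt j) (hst'.right j)
      have h3 : l M ≤ l (j + M) := hmono (by omega)
      calc y j ≤ (l 0 * V) / l (j + M) := div_le_div_of_nonneg_right h2 (hpos _).le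
        _ ≤ (l 0 * V) / l M :=
          div_le_div_of_nonneg_left (mul_nonneg (hpos 0).le hV0) (hpos _) h3
    calc ∑ j ∈ B, y j ≤ ∑ _j ∈ B, (l 0 * V) / l M := Finset.sum_le_sum h1
      _ = B.card * ((l 0 * V) / l M) := by rw [Finset.sum_const, nsmul_eq_mul]
      _ ≤ (2 * n) * ((l 0 * V) / l M) :=
        mul_le_mul_of_nonneg_right hBcard
          (div_nonneg (mul_nonneg (hpos 0).le hV0) (hpos _).le)
      _ = 2 * n * (l 0 * V) / l M := by ring
      _ ≤ δ := hM
  set G : Finset (Fin n') := univ \ B with hG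
  have hGsum : A m - 3 * δ ≤ ∑ j ∈ G, y j := by
    have h1 : ∑ j ∈ G, y j + ∑ j ∈ B, y j = ∑ j, y j := by
      rw [hG]; exact Finset.sum_sdiff (Finset.subset_univ B)
    have h2 : A m - 2 * δ < ∑ j, y j := hv'
    linarith
  have hGgood : ∀ j ∈ G, ∀ i : Fin n, (t' j ≤ s i ∨ t i ≤ s' j) ∨ (s i ≤ s' j ∧ t' j ≤ t i) := by
    intro j hj i
    have h1 : j ∉ B := by
      rw [hG] at hj
      exact (Finset.mem_sdiff.1 hj).2
    have h2 : ¬ (s' j < s i ∧ s i < t' j) := by
      intro hc
      exact h1 (by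
        rw [hB, Finset.mem_biUnion]
        exact ⟨i, mem_univ _, Finset.mem_union_left _ (by simp [hBs, hc])⟩)
    have h3 : ¬ (s' j < t i ∧ t i < t' j) := by
      intro hc
      exact h1 (by
        rw [hB, Finset.mem_biUnion]
        exact ⟨i, mem_univ _, Finset.mem_union_right _ (by simp [hBt, hc])⟩)
    by_cases c1 : t' j ≤ s i
    · exact Or.inl (Or.inl c1)
    by_cases c2 : t i ≤ s' j
    · exact Or.inl (Or.inr c2)
    right
    push Not at c1 c2
    constructor
    · by_contra hc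
      push Not at hc
      exact h2 ⟨hc, c1⟩
    · by_contra hc
      push Not at hc
      exact h3 ⟨c2, hc⟩
  -- the classes
  set I : ℕ → Finset (Fin n) := fun r => univ.filter (fun i => (i : ℕ) % k = r) with hI
  set T : ℕ → Finset (Fin n') := fun r => G.filter (fun j => ∃ i ∈ I r, s i ≤ s' j ∧ t' j ≤ t i)
    with hT
  have hclass : ∀ r, ∑ i ∈ I r, x i + ∑ j ∈ G \ T r, y j ≤ A m := by
    intro r
    have key := (hAbdd m).sum_le_of_injOn (fun i => hpos _)
      (fun p q hpq => hmono (Nat.add_le_add_right hpq m))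
      ((I r).disjSum (G \ T r)) (Sum.elim s s') (Sum.elim t t')
      (Sum.elim (fun i => (i : ℕ) / k) (fun j => (j : ℕ) + (M - m)))
      ?_ ?_ ?_ ?_ ?_
    · rw [Finset.sum_disjSum] at key
      simp only [Sum.elim_inl, Sum.elim_inr] at key
      have e1 : ∀ j : Fin n', (j : ℕ) + (M - m) + m = j + M := fun j => by omega
      simp only [e1] at key
      exact key
    · -- injectivity
      rintro (i | j) h1 (i' | j') h2 h3
      · simp only [Sum.elim_inl] at h3
        rw [Finset.mem_coe, Finset.inl_mem_disjSum] at h1 h2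
        simp only [hI, mem_filter, mem_univ, true_and] at h1 h2
        congr 1
        apply Fin.ext
        rw [← Nat.div_add_mod (i : ℕ) k, ← Nat.div_add_mod (i' : ℕ) k, h3, h1, h2]
      · exfalso
        simp only [Sum.elim_inl, Sum.elim_inr] at h3
        have h4 : (i : ℕ) / k ≤ i := Nat.div_le_self _ _
        have h5 := i.2
        omega
      · exfalso
        simp only [Sum.elim_inl, Sum.elim_inr] at h3
        have h4 : (i' : ℕ) / k ≤ i' := Nat.div_le_self _ _
        have h5 := i'.2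
        omega
      · simp only [Sum.elim_inr] at h3
        congr 1
        apply Fin.ext
        omega
    · rintro (i | j) _
      · exact hst.lt i
      · exact hst'.lt j
    · rintro (i | j) _
      · exact hst.left i
      · exact hst'.left j
    · rintro (i | j) _
      · exact hst.right i
      · exact hst'.right j
    · rintro (i | j) h1 (i' | j') h2 h3
      · simp only [Sum.elim_inl]
        exact hst.disj i i' (fun e => h3 (by rw [e]))
      · simp only [Sum.elim_inl, Sum.elim_inr]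
        rw [Finset.inl_mem_disjSum] at h1
        rw [Finset.inr_mem_disjSum, Finset.mem_sdiff] at h2
        rcases hGgood j' h2.1 i with (h4 | h4) | h4
        · exact Or.inr h4
        · exact Or.inl h4
        · exact absurd (by rw [hT, Finset.mem_filter]; exact ⟨h2.1, i, h1, h4⟩) h2.2
      · simp only [Sum.elim_inl, Sum.elim_inr]
        rw [Finset.inl_mem_disjSum] at h2
        rw [Finset.inr_mem_disjSum, Finset.mem_sdiff] at h1
        rcases hGgood j h1.1 i' with (h4 | h4) | h4
        · exact Or.inl h4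
        · exact Or.inr h4
        · exact absurd (by rw [hT, Finset.mem_filter]; exact ⟨h1.1, i', h2, h4⟩) h1.2
      · simp only [Sum.elim_inr]
        exact hst'.disj j j' (fun e => h3 (by rw [e]))
  have hxsum : ∑ i, x i = ∑ r ∈ range k, ∑ i ∈ I r, x i := by
    rw [hI]
    exact (Finset.sum_fiberwise_of_maps_to
      (fun (i : Fin n) _ => Finset.mem_range.2 (Nat.mod_lt (i : ℕ) hk)) x).symm
  have hTdisj : ∑ r ∈ range k, ∑ j ∈ T r, y j ≤ ∑ j ∈ G, y j := by
    have hpd : ∀ r ∈ range k, ∀ r' ∈ range k, r ≠ r' → Disjoint (T r) (T r') := by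
      intro r _ r' _ hne
      rw [Finset.disjoint_left]
      intro j hj hj'
      simp only [hT, hI, mem_filter, mem_univ, true_and] at hj hj'
      obtain ⟨_, i, hi, hi1, hi2⟩ := hj
      obtain ⟨_, i', hi', hi1', hi2'⟩ := hj'
      have hii : i ≠ i' := by
        rintro rfl
        exact hne (hi.symm.trans hi')
      have h4 := hst'.lt j
      rcases hst.disj i i' hii with h5 | h5
      · linarith
      · linarith
    rw [← Finset.sum_biUnion hpd]
    refine Finset.sum_le_sum_of_subset_of_nonneg ?_ (fun j _ _ => hy0 j)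
    intro j hj
    rw [Finset.mem_biUnion] at hj
    obtain ⟨r, _, hj⟩ := hj
    exact (Finset.mem_filter.1 hj).1
  have hsplit : ∀ r, ∑ j ∈ G \ T r, y j = ∑ j ∈ G, y j - ∑ j ∈ T r, y j := by
    intro r
    have : ∑ j ∈ G \ T r, y j + ∑ j ∈ T r, y j = ∑ j ∈ G, y j :=
      Finset.sum_sdiff (Finset.filter_subset _ _)
    linarith
  have htotal : ∑ r ∈ range k, (∑ i ∈ I r, x i + ∑ j ∈ G \ T r, y j) ≤ k * A m := by
    calc _ ≤ ∑ _r ∈ range k, A m := Finset.sum_le_sum fun r _ => hclass r
      _ = k * A m := by simp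
  simp only [hsplit] at htotal
  rw [Finset.sum_add_distrib, Finset.sum_sub_distrib, ← hxsum, Finset.sum_const, card_range,
    nsmul_eq_mul] at htotal
  have hk1 : (1 : ℝ) ≤ k := by exact_mod_cast hk
  have h1 : (k - 1 : ℝ) * (A m - 3 * δ) ≤ (k - 1) * ∑ j ∈ G, y j :=
    mul_le_mul_of_nonneg_left hGsum (by linarith)
  have h2 : 3 * (k : ℝ) * δ = ε := by
    rw [hδ]; field_simp
  have h3 := hAV m
  have h4 : (k - 1 : ℝ) * (3 * δ) ≤ 3 * k * δ := by nlinarith
  change ∑ i, x i ≤ V + ε
  nlinarith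


/-! ### Comparison of two sequences -/

lemma sum_mul_nonneg_of_antitone (X c : ℕ → ℝ) (hX : Antitone X) (hX0 : ∀ i, 0 ≤ X i)
    (hc : ∀ n, 0 ≤ ∑ i ∈ range n, c i) (n : ℕ) : 0 ≤ ∑ i ∈ range n, X i * c i := by
  have key : ∀ n, X n * ∑ i ∈ range n, c i ≤ ∑ i ∈ range n, X i * c i := by
    intro n
    induction n with
    | zero => simp
    | succ n ih =>
      have h1 : X (n + 1) * ∑ i ∈ range (n + 1), c i ≤ X n * ∑ i ∈ range (n + 1), c i :=
        mul_le_mul_of_nonneg_right (hX (Nat.le_succ n)) (hc _)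
      rw [Finset.sum_range_succ, Finset.sum_range_succ]
      rw [Finset.sum_range_succ] at h1
      nlinarith
  exact le_trans (mul_nonneg (hX0 n) (hc n)) (key n)

/-- If the partial sums of `1 / l` are at most `ε` times those of `1 / g`, then the
`l`-variation is at most `ε` times the `g`-variation. -/
lemma BddBy.compare {l g : ℕ → ℝ} {a b : ℝ} {f : ℝ → ℝ} {C ε : ℝ} (h : BddBy g a b f C)
    (hl : ∀ i, 0 < l i) (hlm : Monotone l)
    (hε : 0 ≤ ε) (hcmp : ∀ n, ∑ i ∈ range n, 1 / l i ≤ ε * ∑ i ∈ range n, 1 / g i) :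
    BddBy l a b f (ε * C) := by
  intro n s t hst
  set x : Fin n → ℝ := fun i => |f (t i) - f (s i)| with hx
  have hx0 : ∀ i, 0 ≤ x i := fun i => abs_nonneg _
  set σ : Equiv.Perm (Fin n) := Tuple.sort (fun i => - x i) with hσ
  have hanti : Antitone (x ∘ σ) := by
    have h1 : Monotone ((fun i => - x i) ∘ σ) := Tuple.monotone_sort _
    intro i j hij
    have := h1 hij
    simp only [Function.comp_apply] at this ⊢
    linarith
  have hNO : NonOverlapping a b (s ∘ σ) (t ∘ σ) :=
    ⟨fun i => hst.lt _, fun i => hst.left _, fun i => hst.right _,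
      fun i j hij => hst.disj _ _ (fun e => hij (σ.injective e))⟩
  have h1 : ∑ i : Fin n, x (σ i) / g i ≤ C := h n _ _ hNO
  have hw : Antitone (fun i : Fin n => 1 / l i) := by
    intro i j hij
    exact one_div_le_one_div_of_le (hl _) (hlm hij)
  have h2 : ∑ i : Fin n, x i / l i ≤ ∑ i : Fin n, x (σ i) / l i := by
    have hm : Monovary (x ∘ σ) (fun i : Fin n => 1 / l i) := hanti.monovary hw
    have h3 := hm.sum_mul_comp_perm_le_sum_mul (σ := σ)
    have h4 : ∑ i : Fin n, x i / l i = ∑ i : Fin n, (x ∘ σ) i * (1 / l (σ i)) := by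
      rw [← Equiv.sum_comp σ]
      refine Finset.sum_congr rfl fun i _ => ?_
      simp [div_eq_mul_inv]
    have h5 : ∑ i : Fin n, x (σ i) / l i = ∑ i : Fin n, (x ∘ σ) i * (1 / l i) := by
      refine Finset.sum_congr rfl fun i _ => ?_
      simp [div_eq_mul_inv]
    rw [h4, h5]
    exact h3
  -- Abel summation
  set X : ℕ → ℝ := fun i => if hi : i < n then x (σ ⟨i, hi⟩) else 0 with hX
  have hXanti : Antitone X := by
    intro i j hij
    simp only [hX]
    by_cases hj : j < n
    · have hi : i < n := lt_of_le_of_lt hij hj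
      rw [dif_pos hj, dif_pos hi]
      exact hanti (show (⟨i, hi⟩ : Fin n) ≤ ⟨j, hj⟩ from hij)
    · rw [dif_neg hj]
      split_ifs
      · exact hx0 _
      · exact le_rfl
  have hX0 : ∀ i, 0 ≤ X i := by
    intro i
    simp only [hX]
    split_ifs
    · exact hx0 _
    · exact le_rfl
  have h6 := sum_mul_nonneg_of_antitone X (fun i => ε * (1 / g i) - 1 / l i) hXanti hX0
    (fun m => by
      rw [Finset.sum_sub_distrib, ← Finset.mul_sum]
      linarith [hcmp m]) n
  have h7 : ∑ i ∈ range n, X i * (ε * (1 / g i) - 1 / l i)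
      = ε * ∑ i : Fin n, x (σ i) / g i - ∑ i : Fin n, x (σ i) / l i := by
    rw [← Fin.sum_univ_eq_sum_range (fun i => X i * (ε * (1 / g i) - 1 / l i)) n,
      Finset.mul_sum, ← Finset.sum_sub_distrib]
    refine Finset.sum_congr rfl fun i _ => ?_
    have : X i = x (σ i) := by simp [hX]
    rw [this]
    ring
  rw [h7] at h6
  have h8 : ε * ∑ i : Fin n, x (σ i) / g i ≤ ε * C := mul_le_mul_of_nonneg_left h1 hε
  change ∑ i : Fin n, x i / l i ≤ ε * C
  linarith

lemma sum_range_mul_div (F : ℕ → ℝ) {k : ℕ} (hk : 0 < k) (q : ℕ) :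
    ∑ i ∈ range (k * q), F (i / k) = k * ∑ j ∈ range q, F j := by
  induction q with
  | zero => simp
  | succ q ih =>
    rw [Nat.mul_succ, Finset.sum_range_add, ih, Finset.sum_range_succ, mul_add]
    congr 1
    have : ∀ i ∈ range k, F ((k * q + i) / k) = F q := by
      intro i hi
      rw [Nat.mul_add_div hk, Nat.div_eq_of_lt (Finset.mem_range.1 hi), add_zero]
    rw [Finset.sum_congr rfl this]
    simp

/-- The criterion. -/
def Criterion (g l : ℕ → ℝ) : Prop :=
  ∀ ε : ℝ, 0 < ε → ∃ k : ℕ, 0 < k ∧ ∀ᶠ n : ℕ in atTop,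
    ∑ i ∈ range (k * n), 1 / l i ≤ ε * (k * ∑ i ∈ range n, 1 / g i)

lemma tendsto_or_bounded {l : ℕ → ℝ} (hl : Monotone l) :
    Tendsto l atTop atTop ∨ ∃ L, ∀ i, l i ≤ L := by
  by_cases h : ∀ c, ∃ i, c ≤ l i
  · exact Or.inl (tendsto_atTop_atTop_of_monotone hl h)
  · push Not at h
    obtain ⟨L, hL⟩ := h
    exact Or.inr ⟨L, fun i => (hL i).le⟩

lemma sum_inv_le {g : ℕ → ℝ} (hg : IsLambdaSeq g) (n : ℕ) :
    ∑ i ∈ range n, 1 / g i ≤ n / g 0 := by
  calc ∑ i ∈ range n, 1 / g i ≤ ∑ _i ∈ range n, 1 / g 0 :=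
        Finset.sum_le_sum fun i _ => one_div_le_one_div_of_le (hg.pos 0) (hg.mono (Nat.zero_le i))
    _ = n / g 0 := by rw [Finset.sum_const, card_range, nsmul_eq_mul]; ring

lemma le_sum_inv {l : ℕ → ℝ} {L : ℝ} (hl : ∀ i, 0 < l i) {n : ℕ} (hL : ∀ i < n, l i ≤ L) :
    n / L ≤ ∑ i ∈ range n, 1 / l i := by
  calc (n : ℝ) / L = ∑ _i ∈ range n, 1 / L := by
        rw [Finset.sum_const, card_range, nsmul_eq_mul]; ring
    _ ≤ ∑ i ∈ range n, 1 / l i :=
        Finset.sum_le_sum fun i hi =>
          one_div_le_one_div_of_le (hl i) (hL i (Finset.mem_range.1 hi))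

lemma Criterion.tendsto {g l : ℕ → ℝ} (hg : IsLambdaSeq g) (hl : IsLambdaSeq l)
    (h : Criterion g l) : Tendsto l atTop atTop := by
  rcases tendsto_or_bounded hl.mono with h1 | ⟨L, hL⟩
  · exact h1
  exfalso
  have hLpos : 0 < L := lt_of_lt_of_le (hl.pos 0) (hL 0)
  have hg0 := hg.pos 0
  obtain ⟨k, hk, hev⟩ := h (g 0 / (2 * L)) (by positivity)
  obtain ⟨n, hn1, hn2⟩ := (hev.and (eventually_ge_atTop 1)).exists
  have h2 := le_sum_inv hl.pos (n := k * n) (fun i _ => hL i)
  have h3 := sum_inv_le hg n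
  have hkn : (0 : ℝ) < k * n := by
    have : 0 < k * n := Nat.mul_pos hk hn2
    exact_mod_cast this
  have h4 : g 0 / (2 * L) * (k * ∑ i ∈ range n, 1 / g i) ≤ g 0 / (2 * L) * (k * (n / g 0)) :=
    mul_le_mul_of_nonneg_left (mul_le_mul_of_nonneg_left h3 (Nat.cast_nonneg k)) (by positivity)
  have h5 : g 0 / (2 * L) * (k * (n / g 0)) = (k * n : ℝ) / L / 2 := by
    field_simp
  push_cast at h2
  have h6 : 0 < (k * n : ℝ) / L := by positivity
  linarith

/-- Big-O comparison derived from the criterion. -/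
lemma Criterion.bigO {g l : ℕ → ℝ} (hg : IsLambdaSeq g) (hl : IsLambdaSeq l)
    (h : Criterion g l) :
    ∃ C : ℝ, 0 ≤ C ∧ ∀ n, ∑ i ∈ range n, 1 / l i ≤ C * ∑ i ∈ range n, 1 / g i := by
  obtain ⟨k, hk, hev⟩ := h 1 one_pos
  obtain ⟨N, hN⟩ := eventually_atTop.1 hev
  have hC : (0 : ℝ) ≤ max (k : ℝ) (g N / l 0) := le_trans (Nat.cast_nonneg k) (le_max_left _ _)
  refine ⟨max (k : ℝ) (g N / l 0), hC, fun n => ?_⟩
  have hGn : 0 ≤ ∑ i ∈ range n, 1 / g i :=
    Finset.sum_nonneg fun i _ => (one_div_pos.2 (hg.pos i)).le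
  rcases le_total N n with h1 | h1
  · have h2 := hN n h1
    have h3 : ∑ i ∈ range n, 1 / l i ≤ ∑ i ∈ range (k * n), 1 / l i :=
      Finset.sum_le_sum_of_subset_of_nonneg
        (Finset.range_subset_range.2 (Nat.le_mul_of_pos_left n hk))
        (fun i _ _ => (one_div_pos.2 (hl.pos i)).le)
    calc _ ≤ _ := h3
      _ ≤ _ := h2
      _ = k * ∑ i ∈ range n, 1 / g i := by rw [one_mul]
      _ ≤ _ := mul_le_mul_of_nonneg_right (le_max_left _ _) hGn
  · have h2 := sum_inv_le hl n
    have h3 := le_sum_inv hg.pos (n := n) (L := g N) (fun i hi => hg.mono (by omega))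
    have h4 : (n : ℝ) / l 0 = (g N / l 0) * (n / g N) := by
      have := (hg.pos N).ne'
      field_simp
    calc _ ≤ (n : ℝ) / l 0 := h2
      _ = (g N / l 0) * (n / g N) := h4
      _ ≤ (g N / l 0) * ∑ i ∈ range n, 1 / g i :=
        mul_le_mul_of_nonneg_left h3 (div_pos (hg.pos N) (hl.pos 0)).le
      _ ≤ _ := mul_le_mul_of_nonneg_right (le_max_right _ _) hGn

lemma exists_shift_compare {g l : ℕ → ℝ} (hg : IsLambdaSeq g) (hl : IsLambdaSeq l)
    (hltop : Tendsto l atTop atTop) {ε : ℝ} (hε : 0 < ε) {k : ℕ} (hk : 0 < k)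
    (hev : ∀ᶠ n : ℕ in atTop, ∑ i ∈ range (k * n), 1 / l i ≤
      ε / 2 * (k * ∑ i ∈ range n, 1 / g i)) (m : ℕ) :
    ∃ M : ℕ, ∀ n, ∑ i ∈ range n, 1 / l (i + M) ≤ ε * ∑ i ∈ range n, 1 / g (i / k + m) := by
  have hgpos : ∀ i, 0 < 1 / g i := fun i => one_div_pos.2 (hg.pos i)
  obtain ⟨N, hN⟩ := eventually_atTop.1 hev
  -- a large threshold `Q`
  obtain ⟨Q, hQ⟩ := eventually_atTop.1 (hg.diverges.eventually_ge_atTop
    (2 * ∑ i ∈ range m, 1 / g i + 1 / g 0))
  set n₁ : ℕ := k * (N + Q + 1) with hn₁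
  obtain ⟨M, hM⟩ := (hltop.eventually_ge_atTop (g (n₁ + m) / ε)).exists
  refine ⟨M, fun n => ?_⟩
  rcases lt_or_ge n n₁ with hn | hn
  · -- small `n`: term by term
    rw [Finset.mul_sum]
    refine Finset.sum_le_sum fun i hi => ?_
    have hi' := Finset.mem_range.1 hi
    have h1 : l M ≤ l (i + M) := hl.mono (by omega)
    have h2 : g (i / k + m) ≤ g (n₁ + m) := by
      refine hg.mono ?_
      have := Nat.div_le_self i k
      omega
    have h3 : g (i / k + m) / ε ≤ l (i + M) :=
      le_trans (div_le_div_of_nonneg_right h2 hε.le) (le_trans hM h1)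
    have h4 : 0 < g (i / k + m) := hg.pos _
    calc 1 / l (i + M) ≤ 1 / (g (i / k + m) / ε) :=
          one_div_le_one_div_of_le (by positivity) h3
      _ = ε * (1 / g (i / k + m)) := by
          field_simp
  · -- large `n`
    set q : ℕ := n / k with hq
    have hqN : N + Q + 1 ≤ q := by
      rw [hq, Nat.le_div_iff_mul_le hk, mul_comm]
      exact hn
    have hnq : n < k * (q + 1) := by
      rw [hq]; exact Nat.lt_mul_div_succ n hk
    have hqn : k * q ≤ n := by
      rw [hq]; exact Nat.mul_div_le n k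
    have h1 : ∑ i ∈ range n, 1 / l (i + M) ≤ ∑ i ∈ range n, 1 / l i :=
      Finset.sum_le_sum fun i _ => one_div_le_one_div_of_le (hl.pos i) (hl.mono (by omega))
    have h2 : ∑ i ∈ range n, 1 / l i ≤ ∑ i ∈ range (k * (q + 1)), 1 / l i :=
      Finset.sum_le_sum_of_subset_of_nonneg (Finset.range_subset_range.2 hnq.le)
        (fun i _ _ => (one_div_pos.2 (hl.pos i)).le)
    have h3 := hN (q + 1) (by omega)
    have h4 : ∑ i ∈ range (k * q), 1 / g (i / k + m) ≤ ∑ i ∈ range n, 1 / g (i / k + m) :=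
      Finset.sum_le_sum_of_subset_of_nonneg (Finset.range_subset_range.2 hqn)
        (fun i _ _ => (hgpos _).le)
    rw [sum_range_mul_div (fun j => 1 / g (j + m)) hk q] at h4
    have h5 : ∑ i ∈ range (m + q), 1 / g i
        = ∑ i ∈ range m, 1 / g i + ∑ j ∈ range q, 1 / g (j + m) := by
      rw [Finset.sum_range_add]
      congr 1
      exact Finset.sum_congr rfl fun j _ => by rw [add_comm]
    have h6 := hQ (m + q) (by omega)
    have h7 : ∑ i ∈ range (q + 1), 1 / g i ≤ ∑ i ∈ range (m + q), 1 / g i + 1 / g 0 := by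
      rw [Finset.sum_range_succ]
      have h8 : ∑ i ∈ range q, 1 / g i ≤ ∑ i ∈ range (m + q), 1 / g i :=
        Finset.sum_le_sum_of_subset_of_nonneg (Finset.range_subset_range.2 (by omega))
          (fun i _ _ => (hgpos _).le)
      have h9 : 1 / g q ≤ 1 / g 0 :=
        one_div_le_one_div_of_le (hg.pos 0) (hg.mono (Nat.zero_le q))
      linarith
    have h10 : ∑ i ∈ range (q + 1), 1 / g i ≤ 2 * ∑ j ∈ range q, 1 / g (j + m) := by
      linarith
    have hk' : (0 : ℝ) < k := by exact_mod_cast hk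
    calc ∑ i ∈ range n, 1 / l (i + M) ≤ _ := h1
      _ ≤ _ := h2
      _ ≤ _ := h3
      _ ≤ ε / 2 * (k * (2 * ∑ j ∈ range q, 1 / g (j + m))) :=
        mul_le_mul_of_nonneg_left (mul_le_mul_of_nonneg_left h10 hk'.le) (by positivity)
      _ = ε * (k * ∑ j ∈ range q, 1 / g (j + m)) := by ring
      _ ≤ _ := mul_le_mul_of_nonneg_left h4 hε.le

/-- Sufficiency of the criterion. -/
theorem inclusion_of_criterion {g l : ℕ → ℝ} {a b : ℝ} (hg : IsLambdaSeq g) (hl : IsLambdaSeq l)
    (h : Criterion g l) : BV g a b ⊆ BVc l a b := by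
  intro f hf
  obtain ⟨V, hV⟩ := mem_BV_iff.1 hf
  have hV0 := hV.nonneg
  have hltop := h.tendsto hg hl
  have hBV : f ∈ BV l a b := by
    obtain ⟨C, hC0, hC⟩ := h.bigO hg hl
    exact mem_BV_iff.2 ⟨C * V, hV.compare hl.pos hl.mono hC0 hC⟩
  refine ⟨hBV, ?_⟩
  have hsmall : ∀ ε : ℝ, 0 < ε → ∃ M, BddBy (fun i => l (i + M)) a b f ε := by
    intro ε hε
    rcases tendsto_or_bounded hg.mono with hgtop | ⟨L, hL⟩
    · set ε' : ℝ := ε / (V + 1) with hε'
      have hε'0 : 0 < ε' := by positivity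
      obtain ⟨k, hk, hev⟩ := h (ε' / 2) (by positivity)
      obtain ⟨m, hm⟩ := hV.dilate hg.pos hg.mono hgtop k hk 1 one_pos
      obtain ⟨M, hM⟩ := exists_shift_compare hg hl hltop hε'0 hk hev m
      refine ⟨M, ?_⟩
      have h1 := hm.compare (l := fun i => l (i + M)) (fun i => hl.pos _)
        (fun i j hij => hl.mono (Nat.add_le_add_right hij M)) hε'0.le hM
      have h2 : ε' * (V + 1) = ε := by rw [hε']; field_simp
      rw [h2] at h1
      exact h1
    · obtain ⟨M, hM⟩ := (hltop.eventually_ge_atTop (L * V / ε + 1)).exists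
      refine ⟨M, ?_⟩
      intro n s t hst
      have h1 := hV n s t hst
      have hLpos : 0 < L := lt_of_lt_of_le (hg.pos 0) (hL 0)
      have h2 : ∑ i : Fin n, |f (t i) - f (s i)| / l (i + M)
          ≤ (L / l M) * ∑ i : Fin n, |f (t i) - f (s i)| / g i := by
        rw [Finset.mul_sum]
        refine Finset.sum_le_sum fun i _ => ?_
        have h3 : l M ≤ l (i + M) := hl.mono (by omega)
        have h4 : |f (t i) - f (s i)| ≤ L * (|f (t i) - f (s i)| / g i) := by
          have h6 := hg.pos i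
          rw [← mul_div_assoc, le_div_iff₀ h6, mul_comm]
          exact mul_le_mul_of_nonneg_right (hL i) (abs_nonneg _)
        calc |f (t i) - f (s i)| / l (i + M) ≤ |f (t i) - f (s i)| / l M :=
              div_le_div_of_nonneg_left (abs_nonneg _) (hl.pos _) h3
          _ ≤ L * (|f (t i) - f (s i)| / g i) / l M :=
              div_le_div_of_nonneg_right h4 (hl.pos _).le
          _ = _ := by ring
      have h5 : 0 < l M := hl.pos M
      have h6 : (L / l M) * ∑ i : Fin n, |f (t i) - f (s i)| / g i ≤ (L / l M) * V :=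
        mul_le_mul_of_nonneg_left h1 (by positivity)
      have h7 : (L / l M) * V ≤ ε := by
        rw [div_mul_eq_mul_div, div_le_iff₀ h5]
        have h8 : L * V / ε ≤ l M := by linarith
        rw [div_le_iff₀ hε] at h8
        linarith
      linarith
  rw [ENNReal.tendsto_nhds_zero]
  intro ε hε
  obtain ⟨δ, hδ0, hδ⟩ : ∃ δ : ℝ, 0 < δ ∧ ENNReal.ofReal δ ≤ ε := by
    rcases eq_or_ne ε ∞ with rfl | hne
    · exact ⟨1, one_pos, le_top⟩
    · exact ⟨ε.toReal, ENNReal.toReal_pos hε.ne' hne, by rw [ENNReal.ofReal_toReal hne]⟩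
  obtain ⟨M, hM⟩ := hsmall δ hδ0
  filter_upwards [eventually_ge_atTop M] with m hm
  refine le_trans ?_ hδ
  rw [variation_le_ofReal_iff hδ0.le]
  have h1 := hM.shift (fun i => hl.pos _) (fun i j hij => hl.mono (Nat.add_le_add_right hij M))
    (m - M)
  have h2 : (fun i => l (i + m)) = fun i => l (i + (m - M) + M) := by
    funext i
    congr 1
    omega
  rw [h2]
  exact h1


/-! ### Necessity: construction of the counterexample function -/

lemma sum_length_le {a b : ℝ} (hab : a ≤ b) {n : ℕ} {s t : Fin n → ℝ}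
    (h : NonOverlapping a b s t) : ∑ i, (t i - s i) ≤ b - a := by
  have h1 : MeasureTheory.volume (⋃ i ∈ (Finset.univ : Finset (Fin n)), Set.Ioo (s i) (t i))
      = ∑ i, MeasureTheory.volume (Set.Ioo (s i) (t i)) := by
    refine MeasureTheory.measure_biUnion_finset ?_ (fun i _ => measurableSet_Ioo)
    intro i _ j _ hij
    rw [Function.onFun, Set.disjoint_left]
    intro x hx hx'
    rcases h.disj i j hij with h2 | h2
    · linarith [hx.2, hx'.1]
    · linarith [hx.1, hx'.2]
  have h2 : MeasureTheory.volume (⋃ i ∈ (Finset.univ : Finset (Fin n)), Set.Ioo (s i) (t i))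
      ≤ MeasureTheory.volume (Set.Icc a b) := by
    refine MeasureTheory.measure_mono ?_
    intro x hx
    simp only [Finset.mem_univ, Set.iUnion_true, Set.mem_iUnion, Set.mem_Ioo] at hx
    obtain ⟨i, hx1, hx2⟩ := hx
    exact ⟨le_trans (h.left i) hx1.le, le_trans hx2.le (h.right i)⟩
  rw [h1] at h2
  simp only [Real.volume_Ioo, Real.volume_Icc] at h2
  rw [← ENNReal.ofReal_sum_of_nonneg (fun i _ => by linarith [h.lt i]),
    ENNReal.ofReal_le_ofReal_iff (by linarith)] at h2
  exact h2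

lemma weighted_bound {g : ℕ → ℝ} (hg : IsLambdaSeq g) {N : ℕ} (z : Fin N → ℝ)
    (hz0 : ∀ i, 0 ≤ z i) (hz1 : ∀ i, z i ≤ 1) {K w : ℝ} {n : ℕ} (hn : 0 < n) (hK : 0 < K)
    (hw : 0 ≤ w) (hsum : ∑ i, z i ≤ K * n * w) :
    1 / (K * ∑ i ∈ range n, 1 / g i) * ∑ i, z i / g i ≤ 1 / K + w := by
  set G : ℝ := ∑ i ∈ range n, 1 / g i with hG
  have hgpos : ∀ i, 0 < 1 / g i := fun i => one_div_pos.2 (hg.pos i)
  have hGpos : 0 < G := Finset.sum_pos (fun i _ => hgpos i) ⟨0, Finset.mem_range.2 hn⟩
  have h1 : ∀ i : Fin N, z i / g i ≤ (if (i : ℕ) < n then 1 / g i else 0) + z i / g n := by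
    intro i
    split_ifs with h
    · have h2 : z i / g i ≤ 1 / g i := div_le_div_of_nonneg_right (hz1 i) (hg.pos _).le
      have h3 : 0 ≤ z i / g n := div_nonneg (hz0 i) (hg.pos _).le
      linarith
    · rw [zero_add]
      exact div_le_div_of_nonneg_left (hz0 i) (hg.pos _) (hg.mono (by omega))
  have h2 : ∑ i, z i / g i ≤ G + K * w * G := by
    calc ∑ i, z i / g i ≤ ∑ i : Fin N, ((if (i : ℕ) < n then 1 / g i else 0) + z i / g n) :=
          Finset.sum_le_sum fun i _ => h1 i
      _ = ∑ i : Fin N, (if (i : ℕ) < n then 1 / g i else 0) + (∑ i, z i) / g n := by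
          rw [Finset.sum_add_distrib, Finset.sum_div]
      _ ≤ G + (K * n * w) / g n := by
          refine add_le_add ?_ (div_le_div_of_nonneg_right hsum (hg.pos _).le)
          rw [Fin.sum_univ_eq_sum_range (fun i => if i < n then 1 / g i else 0) N,
            ← Finset.sum_filter]
          refine Finset.sum_le_sum_of_subset_of_nonneg ?_ (fun i _ _ => (hgpos i).le)
          intro i hi
          rw [Finset.mem_filter] at hi
          exact Finset.mem_range.2 hi.2
      _ = G + K * w * (n / g n) := by ring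
      _ ≤ G + K * w * G := by
          have h3 : (n : ℝ) / g n ≤ G := le_sum_inv hg.pos (fun i hi => hg.mono hi.le)
          have h4 : 0 ≤ K * w := by positivity
          linarith [mul_le_mul_of_nonneg_left h3 h4]
  calc 1 / (K * G) * ∑ i, z i / g i ≤ 1 / (K * G) * (G + K * w * G) :=
        mul_le_mul_of_nonneg_left h2 (by positivity)
    _ = 1 / K + w := by field_simp

lemma tail_bound (x d : ℕ → ℝ) (hx0 : ∀ j, 0 ≤ x j) (hx : ∀ j, x (j + 1) ≤ x j / 8)
    (hd : ∀ j, |d j| ≤ x j) :
    Summable d ∧ ∀ c, |∑' j, d j - ∑ j ∈ range c, d j| ≤ 8 / 7 * x c := by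
  have hgeo : ∀ c i, x (i + c) ≤ x c * (1 / 8) ^ i := by
    intro c i
    induction i with
    | zero => simp
    | succ i ih =>
      have h1 := hx (i + c)
      have h2 : i + 1 + c = i + c + 1 := by omega
      rw [h2, pow_succ]
      linarith
  have hsg : Summable (fun i : ℕ => ((1 : ℝ) / 8) ^ i) :=
    summable_geometric_of_lt_one (by norm_num) (by norm_num)
  have hsx : ∀ c, Summable (fun i => x (i + c)) := fun c =>
    Summable.of_nonneg_of_le (fun i => hx0 _) (hgeo c) (hsg.mul_left _)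
  have hsd : Summable d := by
    have h1 : Summable (fun j => |d j|) :=
      Summable.of_nonneg_of_le (fun i => abs_nonneg _) hd (by simpa using hsx 0)
    exact h1.of_abs
  refine ⟨hsd, fun c => ?_⟩
  have h1 : ∑' j, d j - ∑ j ∈ range c, d j = ∑' i, d (i + c) := by
    rw [← hsd.sum_add_tsum_nat_add c]
    ring
  rw [h1]
  have hsd' : Summable (fun i => |d (i + c)|) :=
    Summable.of_nonneg_of_le (fun i => abs_nonneg _) (fun i => hd _) (hsx c)
  calc |∑' i, d (i + c)| ≤ ∑' i, |d (i + c)| := by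
        have := norm_tsum_le_tsum_norm (f := fun i => d (i + c)) (by simpa using hsd')
        simpa using this
    _ ≤ ∑' i, x c * (1 / 8) ^ i :=
        hsd'.tsum_le_tsum (fun i => le_trans (hd _) (hgeo c i)) (hsg.mul_left _)
    _ = 8 / 7 * x c := by
        rw [tsum_mul_left, tsum_geometric_of_lt_one (by norm_num) (by norm_num)]
        ring


/-- The multi-scale data used in the construction: `x j` is the oscillation and `N j` the number
of oscillations at scale `j`. -/
structure Scales (g l : ℕ → ℝ) (ε : ℝ) (ns : ℕ → ℕ) : Prop where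
  pos : ∀ j, 0 < ns j
  mono : ∀ j, ns j < ns (j + 1)
  big : ∀ j, ε * (2 ^ j * ∑ i ∈ range (ns j), 1 / g i) < ∑ i ∈ range (2 ^ j * ns j), 1 / l i
  decay : ∀ j, 4 * ∑ i ∈ range (ns j), 1 / g i ≤ ∑ i ∈ range (ns (j + 1)), 1 / g i
  slope : ∀ j, 8 * (ns j / ∑ i ∈ range (ns j), 1 / g i)
    ≤ ns (j + 1) / ∑ i ∈ range (ns (j + 1)), 1 / g i

lemma exists_scales {g l : ℕ → ℝ} (hg : IsLambdaSeq g)
    (hgtop : Tendsto g atTop atTop) {ε : ℝ}
    (h : ∀ k : ℕ, 0 < k → ∃ᶠ n : ℕ in atTop,
      ε * (k * ∑ i ∈ range n, 1 / g i) < ∑ i ∈ range (k * n), 1 / l i) :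
    ∃ ns : ℕ → ℕ, Scales g l ε ns := by
  have hgpos : ∀ i, 0 < 1 / g i := fun i => one_div_pos.2 (hg.pos i)
  have hinv : Tendsto (fun i => 1 / g i) atTop (𝓝 0) := by
    refine hgtop.inv_tendsto_atTop.congr fun i => ?_
    simp
  have hces : Tendsto (fun n : ℕ => (n : ℝ)⁻¹ * ∑ i ∈ range n, 1 / g i) atTop (𝓝[>] 0) := by
    rw [tendsto_nhdsWithin_iff]
    refine ⟨hinv.cesaro, ?_⟩
    filter_upwards [eventually_ge_atTop 1] with n hn
    have h1 : 0 < ∑ i ∈ range n, 1 / g i :=
      Finset.sum_pos (fun i _ => hgpos i) ⟨0, Finset.mem_range.2 hn⟩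
    have h2 : (0 : ℝ) < n := by exact_mod_cast hn
    exact Set.mem_Ioi.2 (by positivity)
  have hslope : Tendsto (fun n : ℕ => (n : ℝ) / ∑ i ∈ range n, 1 / g i) atTop atTop := by
    have h1 := hces.inv_tendsto_nhdsGT_zero
    refine h1.congr fun n => ?_
    simp [div_eq_mul_inv, mul_comm]
  have step : ∀ j n : ℕ, ∃ n' : ℕ, n < n' ∧
      ε * (2 ^ j * ∑ i ∈ range n', 1 / g i) < ∑ i ∈ range (2 ^ j * n'), 1 / l i ∧
      4 * ∑ i ∈ range n, 1 / g i ≤ ∑ i ∈ range n', 1 / g i ∧
      8 * (n / ∑ i ∈ range n, 1 / g i) ≤ n' / ∑ i ∈ range n', 1 / g i := by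
    intro j n
    have h1 := h (2 ^ j) (by positivity)
    have h2 := (((eventually_gt_atTop n).and
      (hg.diverges.eventually_ge_atTop (4 * ∑ i ∈ range n, 1 / g i))).and
      (hslope.eventually_ge_atTop (8 * (n / ∑ i ∈ range n, 1 / g i))))
    obtain ⟨n', h3, ⟨h4, h5⟩, h6⟩ := (h1.and_eventually h2).exists
    refine ⟨n', h4, ?_, h5, h6⟩
    push_cast at h3
    exact h3
  choose F hF using step
  let ns : ℕ → ℕ := fun j => Nat.rec (F 0 0) (fun j n => F (j + 1) n) j
  have hns0 : ns 0 = F 0 0 := rfl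
  have hnss : ∀ j, ns (j + 1) = F (j + 1) (ns j) := fun j => rfl
  refine ⟨ns, ?_, ?_, ?_, ?_, ?_⟩
  · intro j
    cases j with
    | zero => rw [hns0]; exact (hF 0 0).1
    | succ j => rw [hnss]; exact lt_of_le_of_lt (Nat.zero_le _) (hF _ _).1
  · intro j
    rw [hnss]
    exact (hF _ _).1
  · intro j
    cases j with
    | zero => rw [hns0]; exact (hF 0 0).2.1
    | succ j => rw [hnss]; exact (hF _ _).2.1
  · intro j
    rw [hnss]
    exact (hF _ _).2.2.1
  · intro j
    rw [hnss]
    exact (hF _ _).2.2.2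

section construction

variable {g l : ℕ → ℝ} {ε : ℝ} {ns : ℕ → ℕ} {a b : ℝ}

/-- amplitude at scale `j` -/
noncomputable def amp (g : ℕ → ℝ) (ns : ℕ → ℕ) (j : ℕ) : ℝ :=
  1 / (2 ^ j * ∑ i ∈ range (ns j), 1 / g i)

/-- number of oscillations at scale `j` -/
def num (ns : ℕ → ℕ) (j : ℕ) : ℕ := 2 ^ j * ns j

lemma sumpos (hg : IsLambdaSeq g) (hs : Scales g l ε ns) (j : ℕ) :
    0 < ∑ i ∈ range (ns j), 1 / g i :=
  Finset.sum_pos (fun i _ => one_div_pos.2 (hg.pos i)) ⟨0, Finset.mem_range.2 (hs.pos j)⟩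

lemma amp_pos (hg : IsLambdaSeq g) (hs : Scales g l ε ns) (j : ℕ) : 0 < amp g ns j := by
  have := sumpos hg hs j
  unfold amp
  positivity

lemma amp_decay (hg : IsLambdaSeq g) (hs : Scales g l ε ns) (j : ℕ) :
    amp g ns (j + 1) ≤ amp g ns j / 8 := by
  have h1 := sumpos hg hs j
  have h2 := hs.decay j
  unfold amp
  rw [div_div]
  refine one_div_le_one_div_of_le (by positivity) ?_
  rw [pow_succ]
  have h3 : (0 : ℝ) < 2 ^ j := by positivity
  nlinarith

lemma amp_le (hg : IsLambdaSeq g) (hs : Scales g l ε ns) (j : ℕ) :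
    amp g ns j ≤ amp g ns 0 * (1 / 8) ^ j := by
  induction j with
  | zero => simp
  | succ j ih =>
    have := amp_decay hg hs j
    rw [pow_succ]
    linarith

lemma amp_tendsto (hg : IsLambdaSeq g) (hs : Scales g l ε ns) :
    Tendsto (amp g ns) atTop (𝓝 0) := by
  have h1 : Tendsto (fun j : ℕ => amp g ns 0 * (1 / 8 : ℝ) ^ j) atTop (𝓝 (amp g ns 0 * 0)) :=
    (tendsto_pow_atTop_nhds_zero_of_lt_one (by norm_num) (by norm_num)).const_mul _
  rw [mul_zero] at h1
  exact squeeze_zero (fun j => (amp_pos hg hs j).le) (amp_le hg hs) h1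

/-- `D j = amp j * num j`. -/
lemma amp_mul_num (hg : IsLambdaSeq g) (hs : Scales g l ε ns) (j : ℕ) :
    amp g ns j * num ns j = ns j / ∑ i ∈ range (ns j), 1 / g i := by
  have h1 := sumpos hg hs j
  unfold amp num
  push_cast
  field_simp

lemma slope_sum (hg : IsLambdaSeq g) (hs : Scales g l ε ns) (c : ℕ) :
    ∑ j ∈ range c, amp g ns j * num ns j ≤ (amp g ns c * num ns c) / 7 := by
  induction c with
  | zero =>
    simp only [range_zero, sum_empty]
    exact div_nonneg (mul_nonneg (amp_pos hg hs 0).le (Nat.cast_nonneg _)) (by norm_num)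
  | succ c ih =>
    rw [Finset.sum_range_succ]
    have h1 := hs.slope c
    rw [← amp_mul_num hg hs, ← amp_mul_num hg hs] at h1
    linarith

lemma num_pos (hs : Scales g l ε ns) (j : ℕ) : 0 < num ns j :=
  Nat.mul_pos (by positivity) (hs.pos j)

lemma num_mono (hs : Scales g l ε ns) : Monotone (num ns) := by
  refine monotone_nat_of_le_succ fun j => ?_
  unfold num
  exact Nat.mul_le_mul (Nat.pow_le_pow_right (by norm_num) (Nat.le_succ j)) (hs.mono j).le

lemma le_num (hs : Scales g l ε ns) (j : ℕ) : j < num ns j := by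
  have h1 : j < ns j := by
    induction j with
    | zero => exact hs.pos 0
    | succ j ih => have := hs.mono j; omega
  have h2 : 1 ≤ 2 ^ j := Nat.one_le_two_pow
  unfold num
  nlinarith

/-- one scale of the function -/
noncomputable def piece (g : ℕ → ℝ) (ns : ℕ → ℕ) (a b : ℝ) (j : ℕ) (y : ℝ) : ℝ :=
  amp g ns j / 2 * Real.cos (num ns j * ((y - a) / (b - a)) * Real.pi)

/-- the function -/
noncomputable def func (g : ℕ → ℝ) (ns : ℕ → ℕ) (a b : ℝ) (y : ℝ) : ℝ :=
  ∑' j, piece g ns a b j y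

lemma piece_sub_le (hg : IsLambdaSeq g) (hs : Scales g l ε ns) (j : ℕ) (y y' : ℝ) :
    |piece g ns a b j y' - piece g ns a b j y| ≤ amp g ns j := by
  have h0 := amp_pos hg hs j
  unfold piece
  rw [← mul_sub, abs_mul, abs_of_pos (by linarith : 0 < amp g ns j / 2)]
  have h1 := Real.abs_cos_le_one (num ns j * ((y' - a) / (b - a)) * Real.pi)
  have h2 := Real.abs_cos_le_one (num ns j * ((y - a) / (b - a)) * Real.pi)
  have h3 := abs_sub (Real.cos (num ns j * ((y' - a) / (b - a)) * Real.pi))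
    (Real.cos (num ns j * ((y - a) / (b - a)) * Real.pi))
  nlinarith

lemma piece_sub_le' (hab : a < b) (hg : IsLambdaSeq g) (hs : Scales g l ε ns) (j : ℕ) {y y' : ℝ}
    (hy : y < y') :
    |piece g ns a b j y' - piece g ns a b j y|
      ≤ 2 * ((y' - y) / (b - a)) * (amp g ns j * num ns j) := by
  have h0 := amp_pos hg hs j
  have hba : 0 < b - a := by linarith
  unfold piece
  rw [← mul_sub, abs_mul, abs_of_pos (by linarith : 0 < amp g ns j / 2)]
  have h1 := Real.abs_cos_sub_cos_le (num ns j * ((y' - a) / (b - a)) * Real.pi)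
    (num ns j * ((y - a) / (b - a)) * Real.pi)
  have h2 : num ns j * ((y' - a) / (b - a)) * Real.pi - num ns j * ((y - a) / (b - a)) * Real.pi
      = num ns j * ((y' - y) / (b - a)) * Real.pi := by
    field_simp
    ring
  have h3 : 0 ≤ num ns j * ((y' - y) / (b - a)) := by
    have : 0 < y' - y := by linarith
    positivity
  rw [h2, abs_of_nonneg (mul_nonneg h3 Real.pi_pos.le)] at h1
  have h4 : num ns j * ((y' - y) / (b - a)) * Real.pi ≤ num ns j * ((y' - y) / (b - a)) * 4 :=
    mul_le_mul_of_nonneg_left Real.pi_le_four h3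
  calc amp g ns j / 2 * _ ≤ amp g ns j / 2 * (num ns j * ((y' - y) / (b - a)) * 4) :=
        mul_le_mul_of_nonneg_left (le_trans h1 h4) (by linarith)
    _ = _ := by ring

lemma piece_summable (hg : IsLambdaSeq g) (hs : Scales g l ε ns) (y : ℝ) :
    Summable (fun j => piece g ns a b j y) := by
  refine (tail_bound (amp g ns) _ (fun j => (amp_pos hg hs j).le) (amp_decay hg hs) ?_).1
  intro j
  have h0 := amp_pos hg hs j
  unfold piece
  rw [abs_mul, abs_of_pos (by linarith : 0 < amp g ns j / 2)]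
  have h1 := Real.abs_cos_le_one (num ns j * ((y - a) / (b - a)) * Real.pi)
  nlinarith

lemma func_sub (hg : IsLambdaSeq g) (hs : Scales g l ε ns) (y y' : ℝ) :
    func g ns a b y' - func g ns a b y
      = ∑' j, (piece g ns a b j y' - piece g ns a b j y) :=
  ((piece_summable hg hs y').tsum_sub (piece_summable hg hs y)).symm

lemma func_upper (hab : a < b) (hg : IsLambdaSeq g) (hs : Scales g l ε ns) {y y' : ℝ}
    (hy : y < y') (c : ℕ) :
    |func g ns a b y' - func g ns a b y|
      ≤ 2 * ((y' - y) / (b - a)) * ∑ j ∈ range c, amp g ns j * num ns j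
        + 8 / 7 * amp g ns c := by
  rw [func_sub hg hs]
  have h1 := (tail_bound (amp g ns) (fun j => piece g ns a b j y' - piece g ns a b j y)
    (fun j => (amp_pos hg hs j).le) (amp_decay hg hs) (fun j => piece_sub_le hg hs j y y')).2 c
  have h2 : |∑ j ∈ range c, (piece g ns a b j y' - piece g ns a b j y)|
      ≤ 2 * ((y' - y) / (b - a)) * ∑ j ∈ range c, amp g ns j * num ns j := by
    refine le_trans (Finset.abs_sum_le_sum_abs _ _) ?_
    rw [Finset.mul_sum]
    exact Finset.sum_le_sum fun j _ => piece_sub_le' hab hg hs j hy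
  have h3 := abs_sub_abs_le_abs_sub (∑' j, (piece g ns a b j y' - piece g ns a b j y))
    (∑ j ∈ range c, (piece g ns a b j y' - piece g ns a b j y))
  linarith

lemma func_lower (hab : a < b) (hg : IsLambdaSeq g) (hs : Scales g l ε ns) (j : ℕ) (i : ℕ) :
    4 / 7 * amp g ns j ≤
      |func g ns a b (a + (b - a) * ((i + 1 : ℕ) / num ns j))
        - func g ns a b (a + (b - a) * (i / num ns j))| := by
  have hba : 0 < b - a := by linarith
  have hN : (0 : ℝ) < num ns j := by exact_mod_cast num_pos hs j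
  have h0 := amp_pos hg hs j
  set y' : ℝ := a + (b - a) * ((i + 1 : ℕ) / num ns j) with hy'
  set y : ℝ := a + (b - a) * (i / num ns j) with hy
  have hyy : (y' - y) / (b - a) = 1 / num ns j := by
    rw [hy', hy]
    push_cast
    field_simp
    ring
  have hlt : y < y' := by
    have h1 : 0 < (y' - y) / (b - a) := by rw [hyy]; positivity
    have h2 : 0 < y' - y := by
      by_contra hc
      have : (y' - y) / (b - a) ≤ 0 := div_nonpos_of_nonpos_of_nonneg (by linarith) hba.le
      linarith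
    linarith
  rw [func_sub hg hs]
  set d : ℕ → ℝ := fun q => piece g ns a b q y' - piece g ns a b q y with hd
  have h1 := (tail_bound (amp g ns) d
    (fun j => (amp_pos hg hs j).le) (amp_decay hg hs) (fun j => piece_sub_le hg hs j y y')).2
    (j + 1)
  have h2 : |∑ q ∈ range j, d q| ≤ 2 / 7 * amp g ns j := by
    have h3 : |∑ q ∈ range j, d q|
        ≤ 2 * ((y' - y) / (b - a)) * ∑ q ∈ range j, amp g ns q * num ns q := by
      refine le_trans (Finset.abs_sum_le_sum_abs _ _) ?_
      rw [Finset.mul_sum]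
      exact Finset.sum_le_sum fun q _ => piece_sub_le' hab hg hs q hlt
    have h4 := slope_sum hg hs j
    rw [hyy] at h3
    calc _ ≤ _ := h3
      _ ≤ 2 * (1 / num ns j) * ((amp g ns j * num ns j) / 7) :=
        mul_le_mul_of_nonneg_left h4 (by positivity)
      _ = 2 / 7 * amp g ns j := by field_simp
  have h5 : |d j| = amp g ns j := by
    simp only [hd, piece]
    have e1 : num ns j * ((y' - a) / (b - a)) = ((i + 1 : ℕ) : ℝ) := by
      rw [hy']; field_simp; ring
    have e2 : num ns j * ((y - a) / (b - a)) = (i : ℝ) := by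
      rw [hy]; field_simp; ring
    rw [e1, e2, Real.cos_nat_mul_pi, Real.cos_nat_mul_pi, pow_succ]
    have e3 : amp g ns j / 2 * ((-1) ^ i * -1) - amp g ns j / 2 * (-1) ^ i
        = (-1) ^ i * (- amp g ns j) := by ring
    rw [e3, abs_mul, abs_pow, abs_neg, abs_one, one_pow, one_mul, abs_neg, abs_of_pos h0]
  have h6 := amp_decay hg hs j
  rw [Finset.sum_range_succ] at h1
  have h7 : |d j| ≤ |∑' q, d q| + |∑' q, d q - (∑ q ∈ range j, d q + d j)|
      + |∑ q ∈ range j, d q| := by
    have e : d j = ∑' q, d q + (-(∑' q, d q - (∑ q ∈ range j, d q + d j)))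
      + (-(∑ q ∈ range j, d q)) := by ring
    calc |d j| = |∑' q, d q + (-(∑' q, d q - (∑ q ∈ range j, d q + d j)))
      + (-(∑ q ∈ range j, d q))| := by rw [← e]
      _ ≤ |∑' q, d q + (-(∑' q, d q - (∑ q ∈ range j, d q + d j)))|
        + |(-(∑ q ∈ range j, d q))| := abs_add_le _ _
      _ ≤ |∑' q, d q| + |(-(∑' q, d q - (∑ q ∈ range j, d q + d j)))|
        + |(-(∑ q ∈ range j, d q))| := by gcongr; exact abs_add_le _ _
      _ = _ := by rw [abs_neg, abs_neg]
  linarith

/-- The constructed function has bounded `g`-variation. -/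
lemma func_bddBy (hab : a < b) (hg : IsLambdaSeq g) (hs : Scales g l ε ns) :
    BddBy g a b (func g ns a b) (72 / 7) := by
  classical
  intro n s t hst
  have hba : 0 < b - a := by linarith
  set L : Fin n → ℝ := fun i => (t i - s i) / (b - a) with hL
  have hL0 : ∀ i, 0 < L i := fun i => div_pos (by linarith [hst.lt i]) hba
  have hLsum : ∑ i, L i ≤ 1 := by
    rw [hL, ← Finset.sum_div, div_le_one hba]
    exact sum_length_le hab.le hst
  have hex : ∀ i, ∃ j, 1 ≤ num ns j * L i := by
    intro i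
    obtain ⟨j, hj⟩ := exists_nat_gt (1 / L i)
    refine ⟨j, ?_⟩
    have h1 : (j : ℝ) < num ns j := by exact_mod_cast le_num hs j
    have h2 : 1 / L i < num ns j := lt_trans hj h1
    rw [div_lt_iff₀ (hL0 i)] at h2
    exact h2.le
  set c : Fin n → ℕ := fun i => Nat.find (hex i) with hc
  have hc1 : ∀ i, 1 ≤ num ns (c i) * L i := fun i => Nat.find_spec (hex i)
  have hc2 : ∀ i j, j < c i → num ns j * L i ≤ 1 := fun i j hj =>
    (not_le.1 (Nat.find_min (hex i) hj)).le
  obtain ⟨J, hJ⟩ : ∃ J, ∀ i, c i < J := by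
    refine ⟨∑ i, c i + 1, fun i => ?_⟩
    have := Finset.single_le_sum (fun i _ => Nat.zero_le (c i)) (Finset.mem_univ i)
    omega
  -- pointwise bound
  have hpt : ∀ i, |func g ns a b (t i) - func g ns a b (s i)| ≤
      ∑ j ∈ range J, (8 / 7 * amp g ns j * (if c i = j then 1 else 0)
        + 16 / 7 * amp g ns j * (if c i = j + 1 then num ns j * L i else 0)) := by
    intro i
    have h1 := func_upper hab hg hs (hst.lt i) (c i)
    rw [Finset.sum_add_distrib]
    have h2 : ∑ j ∈ range J, 8 / 7 * amp g ns j * (if c i = j then 1 else 0)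
        = 8 / 7 * amp g ns (c i) := by
      simp only [mul_ite, mul_one, mul_zero]
      rw [Finset.sum_ite_eq, if_pos (Finset.mem_range.2 (hJ i))]
    have h3 : 2 * ((t i - s i) / (b - a)) * ∑ j ∈ range (c i), amp g ns j * num ns j
        ≤ ∑ j ∈ range J, 16 / 7 * amp g ns j * (if c i = j + 1 then num ns j * L i else 0) := by
      rcases Nat.eq_zero_or_pos (c i) with h4 | h4
      · rw [h4, range_zero, sum_empty, mul_zero]
        refine Finset.sum_nonneg fun j _ => ?_
        rw [if_neg (by omega), mul_zero]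
      · obtain ⟨q, hq⟩ : ∃ q, c i = q + 1 := ⟨c i - 1, by omega⟩
        have h5 := slope_sum hg hs q
        have h6 : ∑ j ∈ range (c i), amp g ns j * num ns j
            ≤ 8 / 7 * (amp g ns q * num ns q) := by
          rw [hq, Finset.sum_range_succ]
          linarith
        have h7 : ∑ j ∈ range J, 16 / 7 * amp g ns j * (if c i = j + 1 then num ns j * L i else 0)
            = 16 / 7 * amp g ns q * (num ns q * L i) := by
          rw [Finset.sum_eq_single q]
          · rw [if_pos hq]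
          · intro j _ hj
            rw [if_neg (by omega), mul_zero]
          · intro h8
            exfalso
            have := hJ i
            exact h8 (Finset.mem_range.2 (by omega))
        rw [h7]
        have h8 : 0 ≤ 2 * L i := by linarith [hL0 i]
        calc 2 * ((t i - s i) / (b - a)) * ∑ j ∈ range (c i), amp g ns j * num ns j
            ≤ 2 * L i * (8 / 7 * (amp g ns q * num ns q)) := mul_le_mul_of_nonneg_left h6 h8
          _ = _ := by ring
    rw [h2]
    linarith
  -- the weights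
  set w : ℕ → ℝ := fun j => ∑ i, if c i = j then L i else 0 with hw
  have hw0 : ∀ j, 0 ≤ w j := by
    intro j
    refine Finset.sum_nonneg fun i _ => ?_
    split_ifs
    · exact (hL0 i).le
    · exact le_rfl
  have hwsum : ∀ Q, ∑ j ∈ range Q, w j ≤ 1 := by
    intro Q
    refine le_trans ?_ hLsum
    rw [hw, Finset.sum_comm]
    refine Finset.sum_le_sum fun i _ => ?_
    rw [Finset.sum_ite_eq]
    split_ifs
    · exact le_rfl
    · exact (hL0 i).le
  have hA : ∀ j, amp g ns j * ∑ i : Fin n, (if c i = j then (1 : ℝ) else 0) / g i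
      ≤ 1 / 2 ^ j + w j := by
    intro j
    refine weighted_bound hg _ ?_ ?_ (hs.pos j) (by positivity) (hw0 j) ?_
    · intro i; split_ifs <;> norm_num
    · intro i; split_ifs <;> norm_num
    · rw [hw, Finset.mul_sum]
      refine Finset.sum_le_sum fun i _ => ?_
      split_ifs with h
      · have := hc1 i
        rw [h] at this
        unfold num at this
        push_cast at this
        exact this
      · simp
  have hB : ∀ j, amp g ns j * ∑ i : Fin n, (if c i = j + 1 then num ns j * L i else 0) / g i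
      ≤ 1 / 2 ^ j + w (j + 1) := by
    intro j
    refine weighted_bound hg _ ?_ ?_ (hs.pos j) (by positivity) (hw0 (j + 1)) ?_
    · intro i
      have := (hL0 i).le
      split_ifs
      · positivity
      · exact le_rfl
    · intro i
      split_ifs with h
      · exact hc2 i j (by omega)
      · exact zero_le_one
    · rw [hw, Finset.mul_sum]
      refine Finset.sum_le_sum fun i _ => ?_
      split_ifs with h
      · unfold num
        push_cast
        exact le_rfl
      · simp
  have hswap : ∑ i : Fin n, |func g ns a b (t i) - func g ns a b (s i)| / g i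
      ≤ ∑ j ∈ range J, (8 / 7 * (1 / 2 ^ j + w j) + 16 / 7 * (1 / 2 ^ j + w (j + 1))) := by
    calc ∑ i : Fin n, |func g ns a b (t i) - func g ns a b (s i)| / g i
        ≤ ∑ i : Fin n, (∑ j ∈ range J, (8 / 7 * amp g ns j * (if c i = j then 1 else 0)
        + 16 / 7 * amp g ns j * (if c i = j + 1 then num ns j * L i else 0))) / g i :=
          Finset.sum_le_sum fun i _ => div_le_div_of_nonneg_right (hpt i) (hg.pos _).le
      _ = ∑ j ∈ range J, (8 / 7 * (amp g ns j * ∑ i : Fin n, (if c i = j then (1 : ℝ) else 0) / g i)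
        + 16 / 7 * (amp g ns j *
          ∑ i : Fin n, (if c i = j + 1 then num ns j * L i else 0) / g i)) := by
          simp_rw [Finset.sum_div]
          rw [Finset.sum_comm]
          refine Finset.sum_congr rfl fun j _ => ?_
          rw [Finset.mul_sum, Finset.mul_sum, Finset.mul_sum, Finset.mul_sum,
            ← Finset.sum_add_distrib]
          refine Finset.sum_congr rfl fun i _ => ?_
          ring
      _ ≤ _ := Finset.sum_le_sum fun j _ =>
          add_le_add (mul_le_mul_of_nonneg_left (hA j) (by norm_num))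
            (mul_le_mul_of_nonneg_left (hB j) (by norm_num))
  refine le_trans hswap ?_
  have hgeo : ∑ j ∈ range J, (1 : ℝ) / 2 ^ j ≤ 2 := by
    have h1 : ∀ Q : ℕ, ∑ j ∈ range Q, (1 : ℝ) / 2 ^ j = 2 - 2 / 2 ^ Q := by
      intro Q
      induction Q with
      | zero => norm_num
      | succ Q ih =>
        rw [Finset.sum_range_succ, ih, pow_succ]
        field_simp
        ring
    rw [h1]
    have : (0 : ℝ) < 2 / 2 ^ J := by positivity
    linarith
  have hw1 : ∑ j ∈ range J, w (j + 1) ≤ 1 := by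
    have h1 := hwsum (J + 1)
    rw [Finset.sum_range_succ'] at h1
    linarith [hw0 0]
  rw [Finset.sum_add_distrib, ← Finset.mul_sum, ← Finset.mul_sum, Finset.sum_add_distrib,
    Finset.sum_add_distrib]
  linarith [hwsum J]

/-- The `l`-variation of the constructed function does not vanish at infinity. -/
lemma func_variation (hab : a < b) (hg : IsLambdaSeq g) (hl : IsLambdaSeq l) (hε : 0 < ε)
    (hs : Scales g l ε ns) (m : ℕ) :
    ENNReal.ofReal (2 / 7 * ε) ≤ variation (fun i => l (i + m)) a b (func g ns a b) := by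
  have hba : 0 < b - a := by linarith
  have hlpos : ∀ i, 0 < 1 / l i := fun i => one_div_pos.2 (hl.pos i)
  -- choose the scale
  have h1 : Tendsto (fun j => amp g ns j * ∑ i ∈ range m, 1 / l i) atTop (𝓝 0) := by
    have := (amp_tendsto hg hs).mul_const (∑ i ∈ range m, 1 / l i)
    rwa [zero_mul] at this
  obtain ⟨j, hj⟩ := (h1.eventually (Iic_mem_nhds (half_pos hε))).exists
  have hj' : amp g ns j * ∑ i ∈ range m, 1 / l i ≤ ε / 2 := hj
  have hN : (0 : ℝ) < num ns j := by exact_mod_cast num_pos hs j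
  have hNO : NonOverlapping a b
      (fun i : Fin (num ns j) => a + (b - a) * ((i : ℕ) / num ns j))
      (fun i : Fin (num ns j) => a + (b - a) * (((i : ℕ) + 1 : ℕ) / num ns j)) := by
    refine ⟨fun i => ?_, fun i => ?_, fun i => ?_, fun i i' hii => ?_⟩
    · have : ((i : ℕ) : ℝ) / num ns j < (((i : ℕ) + 1 : ℕ) : ℝ) / num ns j := by
        refine div_lt_div_of_pos_right ?_ hN
        push_cast
        linarith
      nlinarith
    · have : (0 : ℝ) ≤ ((i : ℕ) : ℝ) / num ns j := by positivity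
      nlinarith
    · have : (((i : ℕ) + 1 : ℕ) : ℝ) / num ns j ≤ 1 := by
        rw [div_le_one hN]
        exact_mod_cast i.2
      nlinarith
    · have hne : (i : ℕ) ≠ i' := fun e => hii (Fin.ext e)
      rcases lt_or_gt_of_ne hne with h2 | h2
      · left
        have : (((i : ℕ) + 1 : ℕ) : ℝ) / num ns j ≤ ((i' : ℕ) : ℝ) / num ns j := by
          refine div_le_div_of_nonneg_right ?_ hN.le
          exact_mod_cast h2
        nlinarith
      · right
        have : (((i' : ℕ) + 1 : ℕ) : ℝ) / num ns j ≤ ((i : ℕ) : ℝ) / num ns j := by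
          refine div_le_div_of_nonneg_right ?_ hN.le
          exact_mod_cast h2
        nlinarith
  refine le_trans (ENNReal.ofReal_le_ofReal ?_) (ofReal_le_variation hNO)
  have h0 := amp_pos hg hs j
  have h2 : ∑ i : Fin (num ns j), 4 / 7 * amp g ns j / l ((i : ℕ) + m) ≤
      ∑ i : Fin (num ns j), |func g ns a b (a + (b - a) * (((i : ℕ) + 1 : ℕ) / num ns j))
        - func g ns a b (a + (b - a) * ((i : ℕ) / num ns j))| / l ((i : ℕ) + m) :=
    Finset.sum_le_sum fun i _ =>
      div_le_div_of_nonneg_right (func_lower hab hg hs j i) (hl.pos _).le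
  refine le_trans ?_ h2
  have h3 : ∑ i : Fin (num ns j), 4 / 7 * amp g ns j / l ((i : ℕ) + m)
      = 4 / 7 * (amp g ns j * ∑ i ∈ range (num ns j), 1 / l (i + m)) := by
    rw [Fin.sum_univ_eq_sum_range (fun i => 4 / 7 * amp g ns j / l (i + m)) (num ns j),
      Finset.mul_sum, Finset.mul_sum]
    refine Finset.sum_congr rfl fun i _ => ?_
    ring
  rw [h3]
  have h4 : ∑ i ∈ range (num ns j), 1 / l i - ∑ i ∈ range m, 1 / l i
      ≤ ∑ i ∈ range (num ns j), 1 / l (i + m) := by
    have h5 : ∑ i ∈ range (m + num ns j), 1 / l i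
        = ∑ i ∈ range m, 1 / l i + ∑ i ∈ range (num ns j), 1 / l (i + m) := by
      rw [Finset.sum_range_add]
      congr 1
      exact Finset.sum_congr rfl fun i _ => by rw [add_comm]
    have h6 : ∑ i ∈ range (num ns j), 1 / l i ≤ ∑ i ∈ range (m + num ns j), 1 / l i :=
      Finset.sum_le_sum_of_subset_of_nonneg (Finset.range_subset_range.2 (by omega))
        (fun i _ _ => (hlpos i).le)
    linarith
  have h5 : ε < amp g ns j * ∑ i ∈ range (num ns j), 1 / l i := by
    have h6 := hs.big j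
    have h7 := sumpos hg hs j
    unfold amp num
    rw [one_div, inv_mul_eq_div, lt_div_iff₀ (by positivity)]
    exact h6
  have h6 := mul_le_mul_of_nonneg_left h4 h0.le
  rw [mul_sub] at h6
  linarith

end construction

lemma not_mem_BVc_of_le {l : ℕ → ℝ} {a b : ℝ} {f : ℝ → ℝ} {c : ℝ} (hc : 0 < c)
    (h : ∀ m : ℕ, ENNReal.ofReal c ≤ variation (fun i => l (i + m)) a b f) : f ∉ BVc l a b := by
  rintro ⟨_, h1⟩
  have h2 : ENNReal.ofReal c ≤ 0 := ge_of_tendsto' h1 h
  rw [nonpos_iff_eq_zero, ENNReal.ofReal_eq_zero] at h2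
  linarith

/-- Necessity of the criterion. -/
theorem exists_of_not_criterion {g l : ℕ → ℝ} {a b : ℝ} (hab : a < b) (hg : IsLambdaSeq g)
    (hl : IsLambdaSeq l) (h : ¬ Criterion g l) : ∃ f, f ∈ BV g a b ∧ f ∉ BVc l a b := by
  have hba : 0 < b - a := by linarith
  rcases tendsto_or_bounded hl.mono with hltop | ⟨L, hL⟩
  · -- the main case
    unfold Criterion at h
    push Not at h
    obtain ⟨ε, hε, h⟩ := h
    have hfreq : ∀ k : ℕ, 0 < k → ∃ᶠ n : ℕ in atTop,
      ε * (k * ∑ i ∈ range n, 1 / g i) < ∑ i ∈ range (k * n), 1 / l i := h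
    have hgtop : Tendsto g atTop atTop := by
      rcases tendsto_or_bounded hg.mono with h1 | ⟨L, hL⟩
      · exact h1
      exfalso
      have hLpos : 0 < L := lt_of_lt_of_le (hg.pos 0) (hL 0)
      have hinv : Tendsto (fun i => 1 / l i) atTop (𝓝 0) := by
        refine hltop.inv_tendsto_atTop.congr fun i => ?_
        simp
      have hces := hinv.cesaro
      have h2 := hces.eventually (Iio_mem_nhds (show (0 : ℝ) < ε / L by positivity))
      obtain ⟨n, h3, h4, h5⟩ := ((hfreq 1 one_pos).and_eventually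
        (h2.and (eventually_ge_atTop 1))).exists
      have h6 := le_sum_inv hg.pos (n := n) (fun i _ => hL i)
      rw [one_mul] at h3
      have hn : (0 : ℝ) < n := by exact_mod_cast h5
      have h7 : ∑ i ∈ range n, 1 / l i < n * (ε / L) := by
        have h8 : (n : ℝ)⁻¹ * ∑ i ∈ range n, 1 / l i < ε / L := h4
        rw [inv_mul_lt_iff₀ hn] at h8
        exact h8
      have h9 : ε * (n / L) ≤ ε * ∑ i ∈ range n, 1 / g i := mul_le_mul_of_nonneg_left h6 hε.le
      have h10 : (n : ℝ) * (ε / L) = ε * (n / L) := by ring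
      push_cast at h3
      rw [one_mul] at h3
      linarith
    obtain ⟨ns, hs⟩ := exists_scales hg hgtop hfreq
    exact ⟨func g ns a b, mem_BV_iff.2 ⟨_, func_bddBy hab hg hs⟩,
      not_mem_BVc_of_le (by positivity) (func_variation hab hg hl hε hs)⟩
  · -- `l` bounded: the identity function
    have hLpos : 0 < L := lt_of_lt_of_le (hl.pos 0) (hL 0)
    refine ⟨fun x => x, mem_BV_iff.2 ⟨(b - a) / g 0, ?_⟩, not_mem_BVc_of_le
      (c := (b - a) / L) (by positivity) ?_⟩
    · intro n s t hst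
      calc ∑ i : Fin n, |t i - s i| / g i ≤ ∑ i : Fin n, (t i - s i) / g 0 := by
            refine Finset.sum_le_sum fun i _ => ?_
            have h1 : 0 < t i - s i := by linarith [hst.lt i]
            rw [abs_of_pos h1]
            exact div_le_div_of_nonneg_left h1.le (hg.pos 0) (hg.mono (Nat.zero_le _))
        _ = (∑ i : Fin n, (t i - s i)) / g 0 := by rw [Finset.sum_div]
        _ ≤ (b - a) / g 0 :=
            div_le_div_of_nonneg_right (sum_length_le hab.le hst) (hg.pos 0).le
    · intro m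
      refine le_trans (ENNReal.ofReal_le_ofReal ?_) (ofReal_le_variation
        (n := 1) (s := fun _ => a) (t := fun _ => b) ⟨fun _ => hab, fun _ => le_rfl,
          fun _ => le_rfl, fun i j hij => absurd (Subsingleton.elim i j) hij⟩)
      simp only [Finset.univ_unique, Fin.default_eq_zero, Fin.isValue, Fin.val_eq_zero,
        Finset.sum_const, Finset.card_singleton, one_smul]
      rw [abs_of_pos hba]
      exact div_le_div_of_nonneg_left hba.le (hl.pos _) (hL _)

/-- The characterisation. -/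
theorem main (a b : ℝ) (hab : a < b) (g l : ℕ → ℝ) (hg : IsLambdaSeq g) (hl : IsLambdaSeq l) :
    BV g a b ⊆ BVc l a b ↔
      ∀ ε : ℝ, 0 < ε → ∃ k : ℕ, 0 < k ∧ ∀ᶠ n : ℕ in atTop,
        ∑ i ∈ range (k * n), 1 / l i ≤ ε * (k * ∑ i ∈ range n, 1 / g i) := by
  constructor
  · intro h
    by_contra hc
    obtain ⟨f, hf1, hf2⟩ := exists_of_not_criterion hab hg hl hc
    exact hf2 (h hf1)
  · intro h
    exact inclusion_of_criterion hg hl h

end Pool.Agent.Helper66.GBV
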